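import Pool.Agent.W170.MV.Final

set_option autoImplicit false

/-!
# Large values of Dirichlet polynomials at clustered points

If `S ⊂ [0,T]` is 1-separated and meets `J` of the intervals `[kH, (k+1)H)`, where `H ≥ √T`, then
`∑_{t ∈ S} |D(t)|² ≤ C (1 + log N)³ N (N + J (H + √(N H)))`.
-/

namespace Pool.Agent.Results.MP_71ac24_nt.ClusteredPoints

open Finset Pool.Agent.W170.MV

theorem result : ∃ C : ℝ, 0 < C ∧
    ∀ N : ℕ, 1 ≤ N → ∀ T H : ℝ, 1 ≤ H → T ≤ H ^ 2 →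
      ∀ a : ℕ → ℂ, (∀ n, ‖a n‖ ≤ 1) →
        ∀ S : Finset ℝ, (∀ t ∈ S, 0 ≤ t ∧ t ≤ T) →
          (∀ t ∈ S, ∀ u ∈ S, t ≠ u → 1 ≤ |t - u|) →
            ∑ t ∈ S, ‖∑ n ∈ Finset.Icc 1 N,
                a n * Complex.exp (Complex.I * (t : ℂ) * (Real.log (n : ℝ) : ℂ))‖ ^ 2 ≤
              C * (1 + Real.log N) ^ 3 * N *
                (N + ((S.image (fun t => ⌊t / H⌋₊)).card : ℝ) * (H + Real.sqrt (N * H))) := by
  refine ⟨84 * C1, by linarith [C1_pos], ?_⟩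
  intro N hN T H hH hT a ha S hS hsep
  have h := clustered_pos hH N hN a ha S (fun t ht => ⟨(hS t ht).1, (hS t ht).2.trans hT⟩) hsep
  refine le_trans (le_of_eq ?_) h
  apply sum_congr rfl
  intro t _
  congr 2
  apply sum_congr rfl
  intro n _
  congr 2
  push_cast
  ring

end Pool.Agent.Results.MP_71ac24_nt.ClusteredPoints
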